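import Pool.Agent.helper80.SV.Spec

/-!
# Module sv:DIM
-/

set_option autoImplicit false

namespace Pool.Agent.SV

open MvPolynomial Module

theorem DIM_card {ι : Type} [Fintype ι] [DecidableEq ι] (s : Finset ι) (n : ℕ) :
    (Finset.piAntidiag s n).card = Nat.multichoose s.card n := by
  rw [← Finset.card_finsuppAntidiag_nat_eq_multichoose]
  symm
  refine Finset.card_bij (fun g _ => ⇑g) ?_ ?_ ?_
  · intro g hg
    rw [Finset.mem_finsuppAntidiag] at hg
    rw [Finset.mem_piAntidiag]
    exact ⟨hg.1, fun i hi => hg.2 (Finsupp.mem_support_iff.2 hi)⟩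
  · intro g _ h _ e
    exact DFunLike.coe_injective e
  · intro f hf
    rw [Finset.mem_piAntidiag] at hf
    refine ⟨Finsupp.equivFunOnFinite.symm f, ?_, by simp⟩
    rw [Finset.mem_finsuppAntidiag]
    refine ⟨by simpa using hf.1, fun i hi => hf.2 i ?_⟩
    simpa using hi

theorem DIM : DIM_stmt := by
  intro ι κ _ _ _ _ c A d
  classical
  rw [finrank_Sec]
  set P : Finset (κ → ι → ℕ) := Fintype.piFinset (fun k =>
    Finset.piAntidiag (A.filter (fun i => c i = k)) (d k)) with hP
  have hmem : ∀ F : κ → ι → ℕ, F ∈ P ↔ ∀ k, (∑ i ∈ A.filter (fun i => c i = k), F k i = d k) ∧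
      ∀ i, F k i ≠ 0 → i ∈ A ∧ c i = k := by
    intro F
    simp only [hP, Fintype.mem_piFinset, Finset.mem_piAntidiag, Finset.mem_filter]
  set φ : (κ → ι → ℕ) → (ι →₀ ℕ) := fun F => Finsupp.equivFunOnFinite.symm (fun i => F (c i) i)
    with hφ
  have hφa : ∀ F i, φ F i = F (c i) i := fun F i => by simp [hφ]
  have hM : Mon c A d = ↑(P.image φ) := by
    ext m
    rw [Finset.coe_image, Set.mem_image]
    constructor
    · rintro ⟨h1, h2⟩
      refine ⟨fun k i => if c i = k then m i else 0, ?_, ?_⟩
      · rw [Finset.mem_coe, hmem]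
        intro k
        refine ⟨?_, ?_⟩
        · rw [← h2 k]
          have e1 : ∑ i ∈ A.filter (fun i => c i = k), (if c i = k then m i else 0) =
              ∑ i ∈ A.filter (fun i => c i = k), m i :=
            Finset.sum_congr rfl fun i hi => if_pos (Finset.mem_filter.1 hi).2
          rw [e1]
          refine Finset.sum_subset (Finset.filter_subset_filter _ (Finset.subset_univ _)) ?_
          intro i hi hi2
          refine h1 i fun hA => hi2 ?_
          rw [Finset.mem_filter] at hi ⊢
          exact ⟨hA, hi.2⟩
        · intro i hi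
          by_cases hc : c i = k
          · refine ⟨?_, hc⟩
            by_contra hA
            apply hi
            simp only [if_pos hc]
            exact h1 i hA
          · exact absurd (if_neg hc) hi
      · ext i
        exact (hφa (fun k i => if c i = k then m i else 0) i).trans (if_pos rfl)
    · rintro ⟨F, hF, rfl⟩
      rw [Finset.mem_coe, hmem] at hF
      refine ⟨fun i hi => ?_, fun k => ?_⟩
      · rw [hφa]
        by_contra h
        exact hi ((hF (c i)).2 i h).1
      · rw [← (hF k).1]
        symm
        have e1 : ∑ i ∈ A.filter (fun i => c i = k), F k i =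
            ∑ i ∈ A.filter (fun i => c i = k), φ F i :=
          Finset.sum_congr rfl fun i hi => by rw [hφa, (Finset.mem_filter.1 hi).2]
        rw [e1]
        refine Finset.sum_subset (Finset.filter_subset_filter _ (Finset.subset_univ _)) ?_
        intro i hi hi2
        rw [hφa]
        by_contra h
        apply hi2
        rw [Finset.mem_filter] at hi ⊢
        exact ⟨((hF (c i)).2 i h).1, hi.2⟩
  have hinj : Set.InjOn φ ↑P := by
    intro F hF G hG h
    rw [Finset.mem_coe, hmem] at hF hG
    funext k i
    by_cases hc : c i = k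
    · have := DFunLike.congr_fun h i
      rw [hφa, hφa, hc] at this
      exact this
    · have h1 : F k i = 0 := by
        by_contra h1
        exact hc ((hF k).2 i h1).2
      have h2 : G k i = 0 := by
        by_contra h2
        exact hc ((hG k).2 i h2).2
      rw [h1, h2]
  rw [hM, Set.ncard_coe_finset, Finset.card_image_of_injOn hinj, hP, Fintype.card_piFinset]
  refine Finset.prod_congr rfl fun k _ => ?_
  exact DIM_card _ _

end Pool.Agent.SV
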