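import Pool.Agent.helper65.SV.SpecE

/-!
# Project sv:, module PRD
-/

set_option autoImplicit false
set_option linter.unusedSectionVars false

namespace Pool.Agent.SV

open Module

section
variable {K : Type} [Fintype K] [DecidableEq K] {n : K → ℕ}

theorem PRD_hatF_add (F G : Cell n → Polynomial ℂ) (χ : Cell n) :
    hatF (F + G) χ = hatF F χ + hatF G χ := by
  simp only [hatF, Pi.add_apply, mul_add, Finset.sum_add_distrib]

theorem PRD_hatF_smul (s : ℂ) (F : Cell n → Polynomial ℂ) (χ : Cell n) :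
    hatF (s • F) χ = s • hatF F χ := by
  simp only [hatF, Pi.smul_apply, Finset.smul_sum, mul_smul_comm]

/-- the map `G ↦ F` -/
noncomputable def PRD_map (h : Cell n → Polynomial ℂ) :
    (Cell n → Polynomial ℂ) →ₗ[ℂ] (Cell n → Polynomial ℂ) where
  toFun G := fun c => Polynomial.C (1 / (Fintype.card (Cell n) : ℂ)) *
    ∑ χ, Polynomial.C (chr χ (-c)) * (sfun h χ * hatF G χ)
  map_add' F G := by
    funext c
    simp only [PRD_hatF_add, Pi.add_apply, mul_add, Finset.sum_add_distrib]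
  map_smul' s F := by
    funext c
    simp only [PRD_hatF_smul, Pi.smul_apply, mul_smul_comm, RingHom.id_apply, ← Finset.smul_sum]

theorem PRD_finite (E : ℕ) {r : ℕ} (c γ : Fin r → Cell n) (t : Fin r → ℂ) (ε : ℂ) :
    Module.Finite ℂ ↥(TwG n E c γ t ε) := by
  classical
  have : Module.Finite ℂ ↥(Polynomial.degreeLT ℂ E) :=
    Module.Finite.equiv (Polynomial.degreeLTEquiv ℂ E).symm
  let Φ : ↥(TwG n E c γ t ε) →ₗ[ℂ] (Cell n → ↥(Polynomial.degreeLT ℂ E)) :=
    LinearMap.pi fun x => LinearMap.codRestrict (Polynomial.degreeLT ℂ E)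
      ((LinearMap.proj x).comp (TwG n E c γ t ε).subtype) (fun G => G.2.1 x)
  refine Module.Finite.of_injective Φ ?_
  intro a b hab
  apply Subtype.ext
  funext x
  have := congrFun hab x
  exact congrArg Subtype.val this

end

theorem PRD (hPCH : PCH_stmt) (hPIN : PIN_stmt) (hPBS : PBS_stmt) (hPTW : PTW_stmt)
    (hPGK : PGK_stmt) (hPST : PST_stmt) : PRD_stmt := by
  intro K _ _ _ n r m E c γ hγ hm
  let t0 : Fin r → ℂ := fun l => ((l : ℕ) : ℂ)
  have ht0 : Function.Injective t0 := by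
    intro a b h
    have h' : (((a : ℕ) : ℂ)) = ((b : ℕ) : ℂ) := h
    exact Fin.ext (by exact_mod_cast h')
  have hfin := hPGK K n (E - m * (∑ i, n i + 2)) r c γ t0 ht0
    (fun l => (hγ l).imp id (fun h => h.1))
  obtain ⟨ε, hε⟩ := (hfin.union (Set.finite_singleton (0:ℂ))).infinite_compl.nonempty
  simp only [Set.mem_compl_iff, Set.mem_union, Set.mem_ofPred_eq, not_or, not_not,
    Set.mem_singleton_iff] at hε
  obtain ⟨hε1, hε0⟩ := hε
  obtain ⟨h, h1, h2, h3⟩ := hPIN (Cell n) r m t0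
    (fun χ l => if γ l = 0 then 0 else (ε⁻¹ / (lamE (γ l) : ℂ)) * chr χ (γ l)) ht0 hm
  have hcard : Fintype.card (Σ χ : Cell n, {τ // τ ∈ (h χ).roots.toFinset}) =
      m * Fintype.card (Cell n) := by
    rw [Fintype.card_sigma, Finset.sum_congr rfl (fun χ _ => (Fintype.card_coe _).trans (h1 χ).2)]
    rw [Finset.sum_const, Finset.card_univ, smul_eq_mul, mul_comm]
  let e := (Fintype.equivFinOfCardEq hcard).symm
  refine ⟨Fin.append (fun j => chy (e j).1) (fun l => ePt (c l)),
    Fin.append (fun j => (e j).2.1) t0, ?_⟩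
  have := PRD_finite (n := n) (E - m * (∑ i, n i + 2)) c γ t0 ε
  have hle : SolF n E (Fin.append (fun j => chy (e j).1) (fun l => ePt (c l)))
      (Fin.append (fun j => (e j).2.1) t0) ≤
      (TwG n (E - m * (∑ i, n i + 2)) c γ t0 ε).map (PRD_map h) := by
    rintro F ⟨hF1, hF2⟩
    have hbase : ∀ χ, ∀ τ ∈ (h χ).roots, SingAt F (chy χ) τ := by
      intro χ τ hτ
      have := hF2 (Fin.castAdd r (e.symm ⟨χ, ⟨τ, Multiset.mem_toFinset.mpr hτ⟩⟩))
      rw [Fin.append_left, Fin.append_left, Equiv.apply_symm_apply] at this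
      exact this
    have hnew : ∀ l, SingAt F (ePt (c l)) (t0 l) := by
      intro l
      have := hF2 (Fin.natAdd _ l)
      rw [Fin.append_right, Fin.append_right] at this
      exact this
    obtain ⟨G, hG1, hG2⟩ := hPBS K n m E h (by omega) h1 h2 F hF1 hbase
    refine ⟨G, ⟨hG1, fun l => ?_⟩, ?_⟩
    · obtain ⟨hn1, hn2⟩ := (hPST K n F (c l) (t0 l)).1 (hnew l)
      by_cases hl : γ l = 0
      · obtain ⟨ht1, ht2⟩ := hPTW K n h F G (γ l) (t0 l) 0
          (fun χ => ⟨(h3 χ l).1, by rw [(h3 χ l).2, if_pos hl, zero_mul]⟩) hG2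
        refine ⟨fun x hx => by rw [← ht1 x]; exact hn1 x hx, fun _ => ?_, fun h => absurd hl h⟩
        have := ht2 (c l)
        rw [hn2] at this
        simpa using this.symm
      · obtain ⟨ht1, ht2⟩ := hPTW K n h F G (γ l) (t0 l) (ε⁻¹ / (lamE (γ l) : ℂ))
          (fun χ => ⟨(h3 χ l).1, by rw [(h3 χ l).2, if_neg hl]⟩) hG2
        refine ⟨fun x hx => by rw [← ht1 x]; exact hn1 x hx, fun h => absurd h hl, fun _ => ?_⟩
        have hlam : (lamE (γ l) : ℂ) ≠ 0 := by
          have := ((hγ l).resolve_left hl).2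
          exact_mod_cast this
        have h4 := ht2 (c l)
        rw [hn2, div_mul_cancel₀ _ hlam] at h4
        have h5 : ε * ε⁻¹ = 1 := mul_inv_cancel₀ hε0
        linear_combination (-ε) * h4 - (Polynomial.eval (t0 l) (G (c l - γ l))) * h5
    · funext x
      obtain ⟨_, _, _, _, _, hinv, _⟩ := hPCH K n
      have hc0 : (Fintype.card (Cell n) : ℂ) ≠ 0 := by
        exact_mod_cast Fintype.card_ne_zero
      change Polynomial.C (1 / (Fintype.card (Cell n) : ℂ)) *
        ∑ χ, Polynomial.C (chr χ (-x)) * (sfun h χ * hatF G χ) = F x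
      rw [Finset.sum_congr rfl (fun χ _ => by rw [← hG2 χ]), ← hinv F x, ← mul_assoc,
        ← Polynomial.C_mul, one_div, inv_mul_cancel₀ hc0, Polynomial.C_1, one_mul]
  calc finrank ℂ ↥(SolF n E (Fin.append (fun j => chy (e j).1) (fun l => ePt (c l)))
      (Fin.append (fun j => (e j).2.1) t0))
      ≤ finrank ℂ ↥((TwG n (E - m * (∑ i, n i + 2)) c γ t0 ε).map (PRD_map h)) :=
        LinearMap.finrank_le_finrank_of_injective (f := Submodule.inclusion hle)
          (Submodule.inclusion_injective hle)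
    _ ≤ finrank ℂ ↥(TwG n (E - m * (∑ i, n i + 2)) c γ t0 ε) := Submodule.finrank_map_le _ _
    _ ≤ _ := hε1

end Pool.Agent.SV
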